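import Mathlib
import Pool.Agent.N805.VP.Stm

/-! Project VP (helper805), leaf SYM: sums of symmetric functions over maps onto a finite set. -/

set_option autoImplicit false

namespace Pool.Agent.N368.VP

open scoped Classical in
theorem SYM : Pool.Agent.N805.VP.S_SYM := by
  intro k F hF f hf
  have e : (Fintype.piFinset (fun _ : Fin k => Finset.univ.image f)).filter
      (fun g => Function.Injective g) =
      (Finset.univ : Finset (Equiv.Perm (Fin k))).image (fun σ => fun i => f (σ i)) := by
    ext g
    simp only [Finset.mem_filter, Fintype.mem_piFinset, Finset.mem_image, Finset.mem_univ,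
      true_and]
    constructor
    · rintro ⟨h1, h2⟩
      choose s hs using h1
      have hinj : Function.Injective s := fun i j hij => h2 (by rw [← hs i, ← hs j, hij])
      refine ⟨Equiv.ofBijective s (Finite.injective_iff_bijective.1 hinj), ?_⟩
      funext i
      exact hs i
    · rintro ⟨σ, rfl⟩
      exact ⟨fun i => ⟨σ i, rfl⟩, fun i j hij => σ.injective (hf hij)⟩
  have e2 : ∑ g ∈ (Fintype.piFinset (fun _ : Fin k => Finset.univ.image f)).filter
      (fun g => Function.Injective g), F g = k.factorial * F f := by
    rw [e, Finset.sum_image]
    · rw [Finset.sum_congr rfl fun σ _ => hF σ f]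
      simp [Fintype.card_perm]
    · intro σ _ σ' _ h
      ext i
      exact congrArg Fin.val (hf (congrFun h i))
  rw [← e2, Finset.sum_filter_add_sum_filter_not]

end Pool.Agent.N368.VP
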